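import Mathlib
import Pool.Agent.Run7.h911.RC3

/-!
# The Ramanujan conjecture for `GL(2)` over number fields: common exceptional places

Let `K` be a number field and `π_1, ..., π_m` unitary cuspidal automorphic representations of `GL_2` over `K` such
that the lifts `Ad π_i` to `GL_3` and `A⁴ π_i = Sym⁴ π_i ⊗ ω_i^{-2}` to `GL_5` are cuspidal and inequivalent. (If
`A⁴ π_i` is not cuspidal, then `π_i` is tempered at all places.) For one representation the places at which it is not
tempered have upper density at most `1 / 35` (Kim, Shahidi). We show: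

* the places at which **all** the `π_i` are not tempered have upper Dirichlet density at most `1 / (34 m + 1)`;
* the places at which two given ones of them are not tempered have upper Dirichlet density at most `1 / 100`;
* hence a set `P` of places of upper density at least `δ > 0` can consist of places at which all `π_i` are not tempered
  only if `m ≤ (1/δ - 1) / 34`.

So a given set of positive upper density is exceptional for finitely many representations only, with an explicit
bound for their number.

The structure `Family` (`Pool/Agent/Run7/h911/RC1.lean`) lists what is used, all of it is known: unitarity; the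
partial `L`-functions `L(s, Π × Π'~)` for `Π, Π'` among the `Ad π_i`, `A⁴ π_i` and the trivial representation (one of them
not trivial) converge absolutely for `Re s > 1` and are holomorphic and nonzero at `s = 1`, except for a simple
pole if `Π = Π'` (Jacquet, Piatetski-Shapiro, Shalika, Shahidi; Gelbart, Jacquet and Kim, Shahidi for the lifts).

Method. With `A = tr Ad(π)_v^k`, `B = tr A⁴(π)_v^k` one has `A² = 1 + A + B`, and `A ≥ 3`, `B ≥ 5` if `π_v` is not
tempered. So `(1 + ∑_i (3 A_i + 5 B_i))²` is at least `(34 m + 1)²` at the common exceptional places, has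
mean `34 m + 1`, and is nonnegative also at the prime powers, so that these can be omitted. For two
representations one uses `(3 A_1 + 1)² (3 A_2 + 1)² = (10 + 15 A_1 + 9 B_1) (10 + 15 A_2 + 9 B_2)`, whose mean is `100` and
which is at least `10 ^ 4` where both are not tempered.
-/

set_option autoImplicit false

namespace Pool.Agent.Results.MP_8410ab_nt.CommonExceptions

open NumberField IsDedekindDomain Filter Topology
open Pool.Agent.TH861.GL3 (PL qq)
open Run7.h911.RC (Family Tempered)

open scoped Classical in
/-- **Common exceptional places of several representations.** `PL S` is the set of the finite places of `K`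
outside `S` and `qq v` the norm of `v`. -/
theorem result {K : Type*} [Field K] [NumberField K] {S : Finset (HeightOneSpectrum (𝓞 K))} {m : ℕ}
    {α : Fin m → PL S → Fin 2 → ℂ} (h : Family α) :
    (∃ C : ℝ, ∀ σ : ℝ, 1 < σ →
      ∑' v : PL S, (if ∀ i, ¬ Tempered (α i v) then (qq v.1 : ℝ) ^ (-σ) else 0) ≤
        1 / (34 * (m : ℝ) + 1) * ∑' v : PL S, (qq v.1 : ℝ) ^ (-σ) + C) ∧
    (∀ i j : Fin m, i ≠ j → ∃ C : ℝ, ∀ σ : ℝ, 1 < σ →
      ∑' v : PL S, (if ¬ Tempered (α i v) ∧ ¬ Tempered (α j v) then (qq v.1 : ℝ) ^ (-σ) else 0) ≤
        1 / 100 * ∑' v : PL S, (qq v.1 : ℝ) ^ (-σ) + C) ∧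
    ∀ (P : Set (PL S)) (δ : ℝ), (∀ v ∈ P, ∀ i, ¬ Tempered (α i v)) → 0 < δ →
      (∃ᶠ σ : ℝ in 𝓝[>] 1, δ * ∑' v : PL S, (qq v.1 : ℝ) ^ (-σ) ≤
        ∑' v : PL S, (if v ∈ P then (qq v.1 : ℝ) ^ (-σ) else 0)) →
      (m : ℝ) ≤ (1 / δ - 1) / 34 := by
  refine ⟨?_, fun i j hij => ?_, fun P δ hP hδ hf => ?_⟩
  · exact Run7.h911.RC.all_nontempered h
  · exact Run7.h911.RC.two_nontempered h hij
  · exact Run7.h911.RC.few_exceptional h P hP hδ hf

end Pool.Agent.Results.MP_8410ab_nt.CommonExceptions
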