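import Mathlib
import Pool.Agent.Run7.h731.HK.Fam3

/-!
# The Ramanujan conjecture for `GL(2)` over number fields in the classes given by Hecke characters

Let `K` be a number field, `G` a compact abelian group, and let `v ↦ g_v ∈ G` be a map such that for each character `χ`
of a group `X` of characters of `G` which separates the points, `v ↦ χ (g_v)` is a unitary Hecke character of `K`,
unramified outside `S`. Examples: `G` a ray class group, `g_v` the class of `v` (`K = ℚ`: residue classes of
primes); `G` the group of the arguments `arg λ(𝔭)` of Größencharaktere of infinite order (for `K = ℚ(i)`: the direction of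
the Gaussian prime `ϖ`, up to units; in general Hecke's directions of the prime elements in Minkowski space),
and combinations of both. By Hecke the `g_v` are equidistributed in `G`: the places with `g_v ∈ U` have
density `μ(U)` if `U` has a boundary of Haar measure zero. They are called the places of the class `U`.

Let `π_1, ..., π_m` be unitary cuspidal automorphic representations of `GL_2` over `K` such that the lifts `Ad π_i` to `GL_3`
and `A⁴ π_i = Sym⁴ π_i ⊗ ω_i^{-2}` to `GL_5` are cuspidal. (If `A⁴ π_i` is not cuspidal, then `π_i` is tempered
at all places.) Assume that `Ad π_i`, `Ad π_j` are not twists of each other for `i ≠ j` by the characters of `X`, and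
so for `A⁴`, and that none of them is a twist of itself by a nontrivial one of them. (As the central characters of
the lifts are trivial, a twist relation by `χ` is possible only if `χ³ = 1` for `Ad` and `χ⁵ = 1` for `A⁴`.) For a
class `U` of positive measure we show that the following sets of places have the following relative upper
densities among the places of `U`:

* the places at which **all** the `π_i` are not tempered: at most `1 / (34 m + 1)`;
* the places at which two given ones of them are not tempered: at most `1 / 100`;
* the places at which some `π_i` is not tempered: at most `m / 35` (so up to `34` representations are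
  simultaneously tempered at a positive proportion of the places of each class, e.g. at a positive
  proportion of the primes in each residue class, or in each sector);
* for thresholds `y_i ≥ 3` the places at which `|a_v(π_i)|² ≥ y_i` for all `i`, where `a_v(π_i)` is the trace of the Satake
  parameter: at most `1 / (1 + ∑_i ((y_i - 1)² + (y_i² - 3 y_i + 1)²))`;
* for `y ≥ 3` the places at which the mean of the `|a_v(π_i)|²`, `i ≤ m`, is at least `y`: at most
  `1 / (1 + m ((y - 1)² + (y² - 3 y + 1)²))`, so again `1 / (34 m + 1)` for `y = 4` (the bound `4` is the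
  consequence of the Ramanujan conjecture).

For `m = 1` and without the class the first bound is the theorem of Kim and Shahidi; for `m > 1` without the class it is
in `CommonExceptions.lean`.

The structure `HeckeFamily` (`Pool/Agent/Run7/h731/HK/Fam.lean`) lists what is used, all of it is known: unitarity; the
partial `L`-functions `L(s, (Π ⊗ χ) × Π'~)` for `χ ∈ X` and `Π, Π'` among the `Ad π_i`, `A⁴ π_i` and the trivial
representation converge absolutely for `Re s > 1` and are holomorphic and nonzero at `s = 1`, except for a simple
pole if `χ = 1` and `Π = Π'` (Hecke; Jacquet, Piatetski-Shapiro, Shalika, Shahidi; Gelbart, Jacquet and Kim, Shahidi for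
the lifts). No bound towards the Ramanujan conjecture is used.

Method. With `A = tr Ad(π)_v^k`, `B = tr A⁴(π)_v^k` one has `A² = 1 + A + B`, and `A ≥ 3`, `B ≥ 5` if `π_v` is not
tempered. The test functions, for instance `(1 + ∑_i (3 A_i + 5 B_i))²`, are nonnegative at all the prime powers `v^k`.
So the weights `F(v, k) (N v)^{-kσ} / k`, divided by their total mass, form measures on `G` (mass at `g_v^k`),
whose Fourier coefficients are logarithms of products of the above `L`-functions divided by `log (1/(σ-1))`;
the logarithms at complex twists are bounded as the `L`-function is analytic and nonzero at `1` (a continuous branch is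
followed to the point `1`). Hence the measures tend weakly to a multiple of the Haar measure
(Weyl's criterion with the Stone-Weierstrass theorem), and the prime powers can be omitted in an upper bound.
-/

set_option autoImplicit false

namespace Pool.Agent.Results.MP_8410ab_nt.HeckeClasses

open NumberField IsDedekindDomain Filter Topology
open Pool.Agent.TH861.GL3 (PL qq)
open Run7.h911.RC (Tempered)
open Pool.Agent.Run7.h731.HK (HeckeFamily RelLe ind)

/-- **The Ramanujan conjecture for several representations in the classes given by Hecke characters.** `PL S` is the set of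
the finite places of `K` outside `S`, `qq v` the norm of `v`; `RelLe g U P c`: the relative upper Dirichlet density of
the places with `P`, among the places `v` with `g v ∈ U`, is at most `c`. -/
theorem result {K : Type*} [Field K] [NumberField K] {S : Finset (HeightOneSpectrum (𝓞 K))}
    {G : Type*} [CommGroup G] [TopologicalSpace G] [IsTopologicalGroup G] [CompactSpace G] [T2Space G]
    [MeasurableSpace G] [BorelSpace G] {m : ℕ} {X : Subgroup (G →ₜ* Circle)} {g : PL S → G}
    {α : Fin m → PL S → Fin 2 → ℂ} (h : HeckeFamily X g α)
    (μ : MeasureTheory.Measure G) [μ.IsMulLeftInvariant] [MeasureTheory.IsProbabilityMeasure μ] [μ.OuterRegular]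
    {U : Set G} (hU : MeasurableSet U) (hf : μ (frontier U) = 0) (h0 : 0 < μ U) :
    Tendsto (fun σ : ℝ => (∑' v : PL S, ind U (g v) * (qq v.1 : ℝ) ^ (-σ)) / ∑' v : PL S, (qq v.1 : ℝ) ^ (-σ))
      (𝓝[>] 1) (𝓝 (μ U).toReal) ∧
    RelLe g U (fun v => ∀ i, ¬ Tempered (α i v)) (1 / (34 * (m : ℝ) + 1)) ∧
    (∀ i j : Fin m, i ≠ j → RelLe g U (fun v => ¬ Tempered (α i v) ∧ ¬ Tempered (α j v)) (1 / 100)) ∧
    RelLe g U (fun v => ∃ i, ¬ Tempered (α i v)) ((m : ℝ) / 35) ∧
    (∀ y : Fin m → ℝ, (∀ i, 3 ≤ y i) → RelLe g U (fun v => ∀ i, y i ≤ ‖α i v 0 + α i v 1‖ ^ 2)
      (1 / (1 + ∑ i, ((y i - 1) ^ 2 + (y i ^ 2 - 3 * y i + 1) ^ 2)))) ∧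
    ∀ y : ℝ, 0 < m → 3 ≤ y → RelLe g U (fun v => (m : ℝ) * y ≤ ∑ i, ‖α i v 0 + α i v 1‖ ^ 2)
      (1 / (1 + (m : ℝ) * ((y - 1) ^ 2 + (y ^ 2 - 3 * y + 1) ^ 2))) := by
  have h1 : 0 < μ.real U := ENNReal.toReal_pos h0.ne' (MeasureTheory.measure_ne_top μ U)
  refine ⟨?_, Pool.Agent.Run7.h731.HK.all_nontempered μ h hU hf h1,
    fun i j hij => Pool.Agent.Run7.h731.HK.two_nontempered μ h hU hf h1 hij,
    Pool.Agent.Run7.h731.HK.some_nontempered μ h hU hf h1,
    fun y hy => Pool.Agent.Run7.h731.HK.all_large μ h hU hf h1 hy,
    fun y hm hy => Pool.Agent.Run7.h731.HK.mean_large μ h hU hf h1 hm hy⟩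
  refine (Pool.Agent.Run7.h731.HK.class_density μ h hU hf).congr fun σ => ?_
  unfold Pool.Agent.Run7.h731.HK.ZU _root_.Run7.h911.RC.Z
  simp only [_root_.Run7.h911.RC.wt_zero]

end Pool.Agent.Results.MP_8410ab_nt.HeckeClasses
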