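import Mathlib
import Pool.Agent.Run7.h911.RC3

/-!
# The Ramanujan conjecture for `GL(2)` over number fields: at most places most of many representations are tempered

Let `K` be a number field and `π_1, ..., π_m` unitary cuspidal automorphic representations of `GL_2` over `K` such
that the lifts `Ad π_i` to `GL_3` and `A⁴ π_i = Sym⁴ π_i ⊗ ω_i^{-2}` to `GL_5` are cuspidal and inequivalent. (If
`A⁴ π_i` is not cuspidal, then `π_i` is tempered at all places.) Let `a_{i,v}` be the Hecke eigenvalues. We show for
every `η > 0`:

* outside a set of places of upper Dirichlet density at most `153 / (153 + 5000 η² m)` fewer than `(1/10 + η) m` of the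
  representations `π_1, ..., π_m` are not tempered at `v`;
* outside a set of upper Dirichlet density at most `1 / (η² m)` the mean of `|a_{i,v}|²` over `i = 1, ..., m` is within
  `η` of `1`, and outside a set of upper density at most `10 / (η² m)` the mean of `|a_{i,v}|⁴` is within `η` of `2`.

So for `m → ∞` the exceptional densities tend to zero, without any condition on the family: at almost every place at
least nine tenths of the representations satisfy the conjecture, and the first two moments of the numbers
`|a_{i,v}|²` are those of the Sato-Tate distribution. The known theorem for one representation (nontempered places have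
upper density at most `1 / 35`) gives only that the places at which more than `m / 10` of the `π_i` are not tempered have
upper density at most `2 / 7`.

The structure `Family` (`Pool/Agent/Run7/h911/RC1.lean`) lists what is used, all of it is known: unitarity; the
partial `L`-functions `L(s, Π × Π'~)` for `Π, Π'` among the `Ad π_i`, `A⁴ π_i` and the trivial representation (one of them
not trivial) converge absolutely for `Re s > 1` and are holomorphic and nonzero at `s = 1`, except for a simple
pole if `Π = Π'` (Jacquet, Piatetski-Shapiro, Shalika, Shahidi; Gelbart, Jacquet and Kim, Shahidi for the lifts).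

Method. With `A = tr Ad(π)_v^k`, `B = tr A⁴(π)_v^k` one has `10 + 15 A + 9 B = (3 A + 1)²`, which is at least `100` if
`π_v` is not tempered. So the mean `L` over `i` of `15 A_i + 9 B_i` is at least `100 η` at the places of the first
statement, while `(s + L)²` has mean `s² + 306 / m`; the prime powers contribute nonnegative terms, which can be
omitted. The best choice of `s` gives the bound. The other two statements are obtained from the means
of `A_i` and of `3 A_i + B_i` in the same way.
-/

set_option autoImplicit false

namespace Pool.Agent.Results.MP_8410ab_nt.MostFormsTempered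

open NumberField IsDedekindDomain
open Pool.Agent.TH861.GL3 (PL qq)
open Run7.h911.RC (Family Tempered)

open scoped Classical in
/-- **At most places most of the representations are tempered.** `PL S` is the set of the finite places of `K`
outside `S` and `qq v` the norm of `v`. -/
theorem result {K : Type*} [Field K] [NumberField K] {S : Finset (HeightOneSpectrum (𝓞 K))} {m : ℕ}
    {α : Fin m → PL S → Fin 2 → ℂ} (h : Family α) (hm : 0 < m) (η : ℝ) (hη : 0 < η) :
    (∃ C : ℝ, ∀ σ : ℝ, 1 < σ →
      ∑' v : PL S, (if (1 / 10 + η) * (m : ℝ) ≤
          ((Finset.univ.filter fun i => ¬ Tempered (α i v)).card : ℝ) then (qq v.1 : ℝ) ^ (-σ) else 0) ≤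
        153 / (153 + 5000 * η ^ 2 * m) * ∑' v : PL S, (qq v.1 : ℝ) ^ (-σ) + C) ∧
    (∃ C : ℝ, ∀ σ : ℝ, 1 < σ →
      ∑' v : PL S, (if η ≤ |(∑ i, ‖α i v 0 + α i v 1‖ ^ 2) / m - 1| then (qq v.1 : ℝ) ^ (-σ) else 0) ≤
        1 / (η ^ 2 * m) * ∑' v : PL S, (qq v.1 : ℝ) ^ (-σ) + C) ∧
    (∃ C : ℝ, ∀ σ : ℝ, 1 < σ →
      ∑' v : PL S, (if η ≤ |(∑ i, ‖α i v 0 + α i v 1‖ ^ 4) / m - 2| then (qq v.1 : ℝ) ^ (-σ) else 0) ≤
        10 / (η ^ 2 * m) * ∑' v : PL S, (qq v.1 : ℝ) ^ (-σ) + C) :=
  ⟨Run7.h911.RC.most_tempered h hm hη, Run7.h911.RC.law_second h hm hη, Run7.h911.RC.law_fourth h hm hη⟩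

end Pool.Agent.Results.MP_8410ab_nt.MostFormsTempered
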