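import Mathlib
import Pool.Agent.Run7.h911.ST4

/-!
# The Ramanujan conjecture for `GL(2)` over number fields on the Sato-Tate intervals of a second representation

Let `K` be a number field and `π` a unitary cuspidal automorphic representation of `GL_2` over `K` such that the lift
`A⁴ π = Sym⁴ π ⊗ ω^{-2}` to `GL_5` is cuspidal (otherwise `π` is known to be tempered), with Satake parameters
`α_v`. Let `π'` be a second one, tempered with trivial central character, all whose symmetric powers are cuspidal
automorphic, for example the one of a holomorphic cusp form, or of a Hilbert modular form, of regular weight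
without complex multiplication (Newton, Thorne); its Satake parameters are `e^{± i θ_v}`. Suppose that
`Ad π`, `Ad π'` are inequivalent and `A⁴ π`, `Sym⁴ π'` are inequivalent. Let `[a, b]` be any interval in `[0, π]`
with `a < b` and consider the places `v` with `θ_v` in `[a, b]`; their density is the Sato-Tate measure of the interval.
We show that the conjecture for `π` is as good on these places as it is on all places:

* the mean of `|α_{0,v} + α_{1,v}|²` over these places is `1`, the mean of the fourth power is `2`;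
* for every `t > 0`, the places with `|α_{0,v} + α_{1,v}|² ≥ 1 + t` have upper relative Dirichlet density at most
  `1 / (1 + t²)` among them, and the same holds for the places with `|α_{0,v} + α_{1,v}|² ≤ 1 - t`;
* the places at which `π_v` is not tempered have upper relative density at most `1 / 10` among them.

So at most one tenth of the places with given approximate value of the Hecke eigenvalue of `π'` are exceptional for
`π`, no matter how short the interval is; the known bound `1 / 35` for the density of all exceptional places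
(Kim, Shahidi) says nothing about intervals of measure at most `1 / 35`.

The structure `Pair` (`Pool/Agent/Run7/h911/ST3.lean`) lists what is used, all of it is known: unitarity, the bound
`N v ^ (7/64)` for the Satake parameters (Kim, Sarnak; Blomer, Brumley), absolute convergence of the Rankin-Selberg
series, and that `L(s, Sym^k π')`, `k ≥ 1`, and `L(s, Π × Sym^k π')`, `k ≥ 0`, for `Π = Ad π`, `A⁴ π` are holomorphic
and nonzero at `s = 1`.

Method. The functions `1`, `A = tr Ad(π)_v`, `B = tr A⁴(π)_v` are uncorrelated with all polynomials in `cos θ_v`, but the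
degree of the polynomials is not bounded; so the nonnegative combinations of `1`, `A`, `B` (like `(1 + t A)²`, since
`A² = 1 + A + B`) keep their mean on every interval by approximation of the indicator function from both sides.
-/

set_option autoImplicit false

namespace Pool.Agent.Results.MP_8410ab_nt.SatoTateIntervals

open NumberField IsDedekindDomain Filter Topology
open Pool.Agent.TH861.GL3 (PL qq)
open Run7.h911.RC (Tempered)
open Run7.h911.ST (Pair)

variable {K : Type*} [Field K] [NumberField K] {S : Finset (HeightOneSpectrum (𝓞 K))}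

open scoped Classical in
/-- the Dirichlet series `∑_{v ∉ S, P v} f v (N v)^{-σ}` -/
noncomputable def DS (P : PL S → Prop) (f : PL S → ℝ) (σ : ℝ) : ℝ :=
  ∑' v : PL S, if P v then f v * (qq v.1 : ℝ) ^ (-σ) else 0

/-- The upper relative Dirichlet density of the places with `P` among those with `Q` is at most `c`. -/
def RelDensityLe (P Q : PL S → Prop) (c : ℝ) : Prop :=
  ∀ ε : ℝ, 0 < ε → ∀ᶠ σ : ℝ in 𝓝[>] 1,
    DS (fun v => Q v ∧ P v) (fun _ => 1) σ ≤ (c + ε) * DS Q (fun _ => 1) σ

/-- **The Ramanujan conjecture on Sato-Tate intervals.** -/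
theorem result {α : PL S → Fin 2 → ℂ} {θ : PL S → ℝ} (h : Pair α θ) {a b : ℝ} (h0 : 0 ≤ a)
    (hab : a < b) (hb : b ≤ Real.pi) :
    Tendsto (fun σ => DS (fun v => a ≤ θ v ∧ θ v ≤ b) (fun _ => 1) σ /
      DS (S := S) (fun _ => True) (fun _ => 1) σ) (𝓝[>] 1)
      (𝓝 (2 / Real.pi * ∫ t in a..b, Real.sin t ^ 2)) ∧
    Tendsto (fun σ => DS (fun v => a ≤ θ v ∧ θ v ≤ b) (fun v => ‖α v 0 + α v 1‖ ^ 2) σ /
      DS (fun v => a ≤ θ v ∧ θ v ≤ b) (fun _ => 1) σ) (𝓝[>] 1) (𝓝 1) ∧
    Tendsto (fun σ => DS (fun v => a ≤ θ v ∧ θ v ≤ b) (fun v => ‖α v 0 + α v 1‖ ^ 4) σ /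
      DS (fun v => a ≤ θ v ∧ θ v ≤ b) (fun _ => 1) σ) (𝓝[>] 1) (𝓝 2) ∧
    (∀ t : ℝ, 0 < t →
      RelDensityLe (fun v => 1 + t ≤ ‖α v 0 + α v 1‖ ^ 2) (fun v => a ≤ θ v ∧ θ v ≤ b)
        (1 / (1 + t ^ 2)) ∧
      RelDensityLe (fun v => ‖α v 0 + α v 1‖ ^ 2 ≤ 1 - t) (fun v => a ≤ θ v ∧ θ v ≤ b)
        (1 / (1 + t ^ 2))) ∧
    RelDensityLe (fun v => ¬ Tempered (α v)) (fun v => a ≤ θ v ∧ θ v ≤ b) (1 / 10) := by
  have hn2 : ∀ v, ‖α v 0 + α v 1‖ ^ 2 = Run7.h911.ST.G 1 1 0 (α v) := fun v => by
    rw [Run7.h911.RC.norm_sq (h.unitary v)]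
    unfold Run7.h911.ST.G
    ring
  have hn4 : ∀ v, ‖α v 0 + α v 1‖ ^ 4 = Run7.h911.ST.G 2 3 1 (α v) := fun v => by
    rw [Run7.h911.RC.norm_four (h.unitary v)]
    unfold Run7.h911.ST.G
    ring
  refine ⟨?_, Run7.h911.ST.ratio h zero_le_one hn2 (fun v => by positivity) h0 hab hb,
    Run7.h911.ST.ratio h zero_le_two hn4 (fun v => by positivity) h0 hab hb,
    fun t ht => ⟨fun ε hε => ?_, fun ε hε => ?_⟩, fun ε hε => ?_⟩
  · refine (Run7.h911.ST.mean_one h h0 hab hb).congr fun σ => ?_
    rw [← Run7.h911.ST.DS_true]
    rfl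
  · refine Run7.h911.ST.cantelli h (s := 1) (by norm_num) ht (fun v hv => ?_) h0 hab hb hε
    have := Run7.h911.RC.norm_sq (h.unitary v)
    linarith
  · refine Run7.h911.ST.cantelli h (s := -1) (by norm_num) ht (fun v hv => ?_) h0 hab hb hε
    have := Run7.h911.RC.norm_sq (h.unitary v)
    linarith
  · have := Run7.h911.ST.cantelli h (s := 1) (t := 3) (P := fun v => ¬ Tempered (α v))
      (by norm_num) (by norm_num) (fun v hv => ?_) h0 hab hb hε
    · norm_num at this ⊢
      exact this
    · have := (Run7.h911.RC.rt_large (h.unitary v) hv 1).1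
      linarith

end Pool.Agent.Results.MP_8410ab_nt.SatoTateIntervals
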